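import Mathlib

/-!
# Depth is not always realized by a reduced factorization

In the affine Coxeter group of type `A₂~` (three generators, all `m(i,j) = 3` for `i ≠ j`) the
element `w = s₀s₁s₂s₀s₁s₂s₀` has length `7` and depth `6`, but every reduced factorization of `w`
into reflections consists of seven simple reflections and has cost `7`.
-/

set_option autoImplicit false

namespace Pool.Agent.Results.MP_c1e3ac_co.AffineA2

open List

section Definitions

variable {B W : Type} [Group W] {M : CoxeterMatrix B} (cs : CoxeterSystem M W)

/-- `ts = [t₁, …, tᵣ]` is a factorization of `w` into reflections: every `tᵢ` is a reflection and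
`t₁ ⋯ tᵣ = w` (the empty list factors the identity). -/
def IsReflFactorization (w : W) (ts : List W) : Prop :=
  (∀ t ∈ ts, cs.IsReflection t) ∧ ts.prod = w

/-- The cost `∑ (1 + ℓ(tᵢ)) / 2` of a list of reflections (each `ℓ(tᵢ)` is odd, so the division
is exact). -/
noncomputable def cost (ts : List W) : ℕ := (ts.map fun t => (1 + cs.length t) / 2).sum

/-- The depth of `w`: the least cost of a factorization of `w` into reflections. -/
noncomputable def depth (w : W) : ℕ :=
  sInf {c | ∃ ts : List W, IsReflFactorization cs w ts ∧ cost cs ts = c}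

/-- The factorization `ts` realizes the depth of `w`. -/
def RealizesDepth (w : W) (ts : List W) : Prop := cost cs ts = depth cs w

/-- The factorization `ts` of `w` is reduced: `ℓ(w) = ∑ ℓ(tᵢ)`. -/
def IsReducedFactorization (w : W) (ts : List W) : Prop :=
  cs.length w = (ts.map cs.length).sum

end Definitions

/-- The Coxeter matrix of the affine group `A₂~`: three generators, `m(i,j) = 3` for `i ≠ j`. -/
def affineA2 : CoxeterMatrix (Fin 3) where
  M := !![1, 3, 3; 3, 1, 3; 3, 3, 1]
  isSymm := by
    unfold Matrix.IsSymm
    decide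
  diagonal := by decide
  off_diagonal := by
    intro i j h
    fin_cases i <;> fin_cases j <;> simp at h ⊢

section General

variable {W : Type} [Group W] (cs : CoxeterSystem affineA2 W)

/-! ## The action on `ℤ³` -/

/-- Matrices of the simple reflections acting on the weight coordinates. -/
def refl : Fin 3 → Matrix (Fin 3) (Fin 3) ℤ
  | 0 => !![-1, 0, 0; 1, 1, 0; 1, 0, 1]
  | 1 => !![1, 1, 0; 0, -1, 0; 0, 1, 1]
  | 2 => !![1, 0, 1; 0, 1, 1; 0, 0, -1]

theorem refl_liftable : affineA2.IsLiftable refl := by
  intro i j
  fin_cases i <;> fin_cases j <;> decide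

/-- The representation. -/
noncomputable def rep : W →* Matrix (Fin 3) (Fin 3) ℤ :=
  cs.lift ⟨refl, refl_liftable⟩

theorem rep_simple (i : Fin 3) : rep cs (cs.simple i) = refl i :=
  cs.lift_apply_simple refl_liftable i

/-- The action of the simple reflections on triples. -/
def actOne : Fin 3 → ℤ × ℤ × ℤ → ℤ × ℤ × ℤ
  | 0, (a, b, c) => (-a, b + a, c + a)
  | 1, (a, b, c) => (a + b, -b, c + b)
  | 2, (a, b, c) => (a + c, b + c, -c)

/-- All words of length `n` carrying `(1,1,1)` to `x`. -/
def words : ℕ → ℤ × ℤ × ℤ → List (List (Fin 3))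
  | 0, x => if x = (1, 1, 1) then [[]] else []
  | n + 1, x => [0, 1, 2].flatMap fun i => (words n (actOne i x)).map (i :: ·)

/-- A triple as a vector. -/
def toVec (x : ℤ × ℤ × ℤ) : Fin 3 → ℤ := ![x.1, x.2.1, x.2.2]

theorem toVec_injective : Function.Injective toVec := by
  rintro ⟨a, b, c⟩ ⟨a', b', c'⟩ h
  have h0 := congrFun h 0
  have h1 := congrFun h 1
  have h2 := congrFun h 2
  simp [toVec] at h0 h1 h2
  simp [h0, h1, h2]

theorem refl_mulVec (i : Fin 3) (x : ℤ × ℤ × ℤ) :
    (refl i).mulVec (toVec x) = toVec (actOne i x) := by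
  obtain ⟨a, b, c⟩ := x
  fin_cases i <;>
  · ext j
    fin_cases j <;> simp [refl, toVec, actOne, Matrix.mulVec, dotProduct, Fin.sum_univ_three] <;>
      ring

/-- The vector of a group element. -/
noncomputable def vecOf (g : W) : Fin 3 → ℤ := (rep cs g).mulVec (toVec (1, 1, 1))

theorem vecOf_cons (i : Fin 3) (ω : List (Fin 3)) :
    vecOf cs (cs.wordProd (i :: ω)) = (refl i).mulVec (vecOf cs (cs.wordProd ω)) := by
  simp [vecOf, cs.wordProd_cons, rep_simple, Matrix.mulVec_mulVec]

theorem mem_words (ω : List (Fin 3)) (x : ℤ × ℤ × ℤ)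
    (h : vecOf cs (cs.wordProd ω) = toVec x) :
    ω ∈ words ω.length x := by
  induction ω generalizing x with
  | nil =>
    have : toVec (1, 1, 1) = toVec x := by simpa [vecOf] using h
    have := toVec_injective this
    simp [words, ← this]
  | cons i ω ih =>
    have h1 : vecOf cs (cs.wordProd ω) = toVec (actOne i x) := by
      rw [vecOf_cons] at h
      have h3 : refl i * refl i = 1 := by
        fin_cases i <;> decide
      have h4 := congrArg (refl i).mulVec h
      rw [Matrix.mulVec_mulVec, h3, Matrix.one_mulVec, refl_mulVec] at h4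
      exact h4
    have := ih _ h1
    simp only [List.length_cons, words, List.mem_flatMap, List.mem_map]
    refine ⟨i, ?_, ω, this, rfl⟩
    fin_cases i <;> simp

/-- The word of `w`. -/
def w₀ : List (Fin 3) := [0, 1, 2, 0, 1, 2, 0]

/-- The vector of `w`. -/
def x₀ : ℤ × ℤ × ℤ := w₀.foldr actOne (1, 1, 1)

theorem vecOf_w₀ : vecOf cs (cs.wordProd w₀) = toVec x₀ := by
  have key : ∀ ω : List (Fin 3), vecOf cs (cs.wordProd ω) = toVec (ω.foldr actOne (1, 1, 1)) := by
    intro ω
    induction ω with
    | nil => simp [vecOf]
    | cons i ω ih =>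
      rw [vecOf_cons, ih, refl_mulVec]
      rfl
  exact key w₀

/-- `w₀` is the only word of length at most `7` for `w`. -/
theorem unique_word (ω : List (Fin 3)) (hω : cs.wordProd ω = cs.wordProd w₀)
    (hl : ω.length ≤ 7) : ω = w₀ := by
  have h1 : ω ∈ words ω.length x₀ := mem_words cs ω x₀ (by rw [hω, vecOf_w₀])
  have h2 : words 0 x₀ = [] := by decide
  have h3 : words 1 x₀ = [] := by decide
  have h4 : words 2 x₀ = [] := by decide
  have h5 : words 3 x₀ = [] := by decide
  have h6 : words 4 x₀ = [] := by decide
  have h7 : words 5 x₀ = [] := by decide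
  have h8 : words 6 x₀ = [] := by decide
  have h9 : words 7 x₀ = [w₀] := by decide
  generalize hn : ω.length = n at *
  interval_cases n <;> simp_all

theorem length_w₀ : cs.length (cs.wordProd w₀) = 7 := by
  obtain ⟨ω, hω, hw⟩ := cs.exists_isReduced (cs.wordProd w₀)
  have h1 : cs.length (cs.wordProd w₀) ≤ 7 := cs.length_wordProd_le w₀
  have h2 : ω.length ≤ 7 := by rw [← hω.eq, ← hw]; exact h1
  have h3 := unique_word cs ω hw.symm h2
  rw [hw, hω.eq, h3]
  rfl

/-- A reduced word of a group element. -/
noncomputable def redWord (g : W) : List (Fin 3) := (cs.exists_isReduced g).choose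

theorem redWord_length (g : W) : (redWord cs g).length = cs.length g := by
  have h := (cs.exists_isReduced g).choose_spec
  rw [redWord, ← h.1.eq, ← h.2]

theorem wordProd_redWord (g : W) : cs.wordProd (redWord cs g) = g :=
  (cs.exists_isReduced g).choose_spec.2.symm

theorem wordProd_flatMap (ts : List W) : cs.wordProd (ts.flatMap (redWord cs)) = ts.prod := by
  induction ts with
  | nil => simp
  | cons t ts ih => simp [cs.wordProd_append, ih, wordProd_redWord]

theorem length_flatMap' (ts : List W) :
    (ts.flatMap (redWord cs)).length = (ts.map cs.length).sum := by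
  induction ts with
  | nil => simp
  | cons t ts ih => simp [ih, redWord_length]

/-- No palindromic factor of length at least two. -/
theorem no_palindrome (a p b : List (Fin 3)) (h : a ++ p ++ b = w₀) (hp : p.reverse = p) :
    p.length ≤ 1 := by
  have hl : a.length + p.length + b.length = 7 := by
    have := congrArg List.length h
    simpa [w₀, add_assoc] using this
  have hpe : p = (w₀.drop a.length).take p.length := by
    rw [← h]; simp
  have key : ∀ i < 8, ∀ j < 8, i + j ≤ 7 →
      ((w₀.drop i).take j).reverse = (w₀.drop i).take j → j ≤ 1 := by decide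
  refine key a.length (by omega) p.length (by omega) (by omega) ?_
  rw [← hpe, hp]

/-- In a reduced factorization of `w` every reflection is simple. -/
theorem length_eq_one_of_reduced (ts : List W)
    (hts : IsReflFactorization cs (cs.wordProd w₀) ts)
    (hred : IsReducedFactorization cs (cs.wordProd w₀) ts) :
    ∀ t ∈ ts, cs.length t = 1 := by
  intro t ht
  obtain ⟨a, b, rfl⟩ := List.append_of_mem ht
  have hrefl := hts.1 t ht
  have hodd := hrefl.odd_length
  have hlen : ((a ++ t :: b).flatMap (redWord cs)).length = 7 := by
    rw [length_flatMap', ← hred, length_w₀]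
  have e1 : (a ++ t :: b).flatMap (redWord cs) = w₀ := by
    apply unique_word cs
    · rw [wordProd_flatMap, hts.2]
    · rw [hlen]
  have e1' : a.flatMap (redWord cs) ++ redWord cs t ++ b.flatMap (redWord cs) = w₀ := by
    rw [← e1]; simp
  have e2 : a.flatMap (redWord cs) ++ (redWord cs t).reverse ++ b.flatMap (redWord cs) = w₀ := by
    apply unique_word cs
    · rw [cs.wordProd_append, cs.wordProd_append, cs.wordProd_reverse, wordProd_redWord,
        hrefl.inv, ← e1', cs.wordProd_append, cs.wordProd_append, wordProd_redWord]
    · have := congrArg List.length e1'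
      simp only [List.length_append, List.length_reverse] at this ⊢
      rw [this]
      decide
  have e3 : (redWord cs t).reverse = redWord cs t := by
    have h := e1'.trans e2.symm
    rw [List.append_assoc, List.append_assoc] at h
    have h' := List.append_cancel_left h
    exact (List.append_cancel_right h').symm
  have h := no_palindrome _ _ _ e1' e3
  rw [redWord_length] at h
  obtain ⟨k, hk⟩ := hodd
  omega

theorem sum_of_ones (ts : List W) (h : ∀ t ∈ ts, cs.length t = 1) :
    (ts.map cs.length).sum = ts.length ∧ cost cs ts = ts.length := by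
  induction ts with
  | nil => simp [cost]
  | cons t ts ih =>
    have h1 := h t (by simp)
    have h2 := ih (fun u hu => h u (by simp [hu]))
    obtain ⟨h3, h4⟩ := h2
    constructor
    · simp [h1, h3, add_comm]
    · have : cost cs (t :: ts) = (1 + cs.length t) / 2 + cost cs ts := by simp [cost]
      rw [this, h4, h1]
      simp [add_comm]

theorem cost_of_reduced (ts : List W)
    (hts : IsReflFactorization cs (cs.wordProd w₀) ts)
    (hred : IsReducedFactorization cs (cs.wordProd w₀) ts) : cost cs ts = 7 := by
  have h1 := length_eq_one_of_reduced cs ts hts hred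
  obtain ⟨h2, h3⟩ := sum_of_ones cs ts h1
  rw [h3, ← h2, ← hred, length_w₀]

theorem braid (i j : Fin 3) (h : i ≠ j) :
    cs.simple i * cs.simple j * cs.simple i = cs.simple j * cs.simple i * cs.simple j := by
  have h3 : affineA2 i j = 3 := by
    fin_cases i <;> fin_cases j <;> first | rfl | exact absurd rfl h
  have h1 := cs.simple_mul_simple_pow i j
  rw [h3] at h1
  have h2 : cs.simple i * cs.simple j * cs.simple i =
      (cs.simple j * cs.simple i * cs.simple j)⁻¹ := by
    rw [eq_inv_iff_mul_eq_one]
    simpa [pow_succ, mul_assoc] using h1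
  rw [h2]
  simp [mul_assoc]

/-- A cheap factorization of `w`. -/
theorem cheap : ∃ ts : List W, IsReflFactorization cs (cs.wordProd w₀) ts ∧ cost cs ts ≤ 6 := by
  refine ⟨[cs.wordProd [0, 1, 0], cs.wordProd [2], cs.wordProd [0, 2, 1, 2, 0]],
    ⟨?_, ?_⟩, ?_⟩
  · intro t ht
    simp only [List.mem_cons, List.not_mem_nil, or_false] at ht
    rcases ht with rfl | rfl | rfl
    · exact ⟨cs.simple 0, 1, by simp [CoxeterSystem.wordProd, mul_assoc]⟩
    · exact ⟨1, 2, by simp [CoxeterSystem.wordProd]⟩
    · exact ⟨cs.simple 0 * cs.simple 2, 1, by simp [CoxeterSystem.wordProd, mul_assoc]⟩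
  · have b := braid cs 0 2 (by decide)
    have h1 : cs.simple 0 * cs.simple 2 * cs.simple 0 * cs.simple 2 =
        cs.simple 2 * cs.simple 0 := by
      rw [b]
      simp
    have h2 : cs.wordProd [0, 1, 0] * (cs.wordProd [2] * cs.wordProd [0, 2, 1, 2, 0]) =
        cs.simple 0 * cs.simple 1 * (cs.simple 0 * cs.simple 2 * cs.simple 0 * cs.simple 2) *
          cs.simple 1 * cs.simple 2 * cs.simple 0 := by
      simp [CoxeterSystem.wordProd, mul_assoc]
    simp only [List.prod_cons, List.prod_nil, mul_one]
    rw [h2, h1]
    simp [w₀, CoxeterSystem.wordProd, mul_assoc]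
  · have h1 := cs.length_wordProd_le [0, 1, 0]
    have h2 := cs.length_wordProd_le [2]
    have h3 := cs.length_wordProd_le [0, 2, 1, 2, 0]
    simp only [List.length_cons, List.length_nil] at h1 h2 h3
    simp only [cost, List.map_cons, List.map_nil, List.sum_cons, List.sum_nil]
    omega

theorem depth_le : depth cs (cs.wordProd w₀) ≤ 6 := by
  obtain ⟨ts, h1, h2⟩ := cheap cs
  have h3 : cost cs ts ∈
      {c | ∃ ts : List W, IsReflFactorization cs (cs.wordProd w₀) ts ∧ cost cs ts = c} :=
    ⟨ts, h1, rfl⟩
  exact (Nat.sInf_le h3).trans h2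

theorem length_prod_le (ts : List W) : cs.length ts.prod ≤ (ts.map cs.length).sum := by
  induction ts with
  | nil => simp
  | cons t ts ih =>
    simp only [List.prod_cons, List.map_cons, List.sum_cons]
    exact (cs.length_mul_le _ _).trans (by omega)

theorem two_cost (ts : List W) (h : ∀ t ∈ ts, cs.IsReflection t) :
    2 * cost cs ts = ts.length + (ts.map cs.length).sum := by
  induction ts with
  | nil => simp [cost]
  | cons t ts ih =>
    have h1 := (h t (by simp)).odd_length
    have h2 := ih (fun u hu => h u (by simp [hu]))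
    have h3 : cost cs (t :: ts) = (1 + cs.length t) / 2 + cost cs ts := by simp [cost]
    rw [h3]
    simp only [List.length_cons, List.map_cons, List.sum_cons]
    obtain ⟨k, hk⟩ := h1
    omega

theorem length_prod_parity (ts : List W) :
    cs.length ts.prod % 2 = (ts.map cs.length).sum % 2 := by
  induction ts with
  | nil => simp
  | cons t ts ih =>
    simp only [List.prod_cons, List.map_cons, List.sum_cons]
    have := cs.length_mul_mod_two t ts.prod
    omega

theorem le_cost (ts : List W) (h : IsReflFactorization cs (cs.wordProd w₀) ts) :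
    6 ≤ cost cs ts := by
  by_cases hred : IsReducedFactorization cs (cs.wordProd w₀) ts
  · rw [cost_of_reduced cs ts h hred]
    decide
  · have h1 := two_cost cs ts h.1
    have h2 := length_prod_parity cs ts
    have h3 := length_prod_le cs ts
    rw [h.2, length_w₀] at h2 h3
    have h4 : (ts.map cs.length).sum ≠ 7 := by
      intro h5
      exact hred (by rw [IsReducedFactorization, length_w₀, h5])
    by_contra h6
    have h7 : ts.length ≤ 1 := by omega
    match ts, h7 with
    | [], _ => simp at h2
    | [t], _ =>
      have h8 := h.2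
      simp only [List.prod_cons, List.prod_nil, mul_one] at h8
      apply h4
      simp [h8, length_w₀]

theorem depth_eq : depth cs (cs.wordProd w₀) = 6 := by
  apply le_antisymm (depth_le cs)
  obtain ⟨ts, h1, h2⟩ := cheap cs
  have h3 : {c | ∃ ts : List W, IsReflFactorization cs (cs.wordProd w₀) ts ∧
      cost cs ts = c}.Nonempty := ⟨cost cs ts, ts, h1, rfl⟩
  obtain ⟨ts', h4, h5⟩ := Nat.sInf_mem h3
  unfold depth
  rw [← h5]
  exact le_cost cs ts' h4

end General

/-- The Coxeter system of type `A₂~`. -/
noncomputable abbrev cs : CoxeterSystem affineA2 affineA2.Group := affineA2.toCoxeterSystem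

/-- The element `w = s₀ s₁ s₂ s₀ s₁ s₂ s₀` of the affine group of type `A₂~`. -/
noncomputable def w : affineA2.Group :=
  cs.simple 0 * cs.simple 1 * cs.simple 2 * cs.simple 0 * cs.simple 1 * cs.simple 2 * cs.simple 0

theorem wordProd_w₀ : cs.wordProd w₀ = w := by
  simp [w₀, w, CoxeterSystem.wordProd, mul_assoc]

/-- In the affine group of type `A₂~` the element `w = s₀s₁s₂s₀s₁s₂s₀` has length `7` and depth
`6`; every reduced factorization of `w` into reflections has exactly seven factors and cost `7`;
and every factorization of `w` into reflections which realizes its depth has total length strictly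
larger than `ℓ(w)`. So no reduced factorization of `w` realizes the depth of `w`. -/
theorem result :
    cs.length w = 7 ∧ depth cs w = 6 ∧
    (∀ ts : List affineA2.Group, IsReflFactorization cs w ts → IsReducedFactorization cs w ts →
      ts.length = 7 ∧ cost cs ts = 7) ∧
    (∀ ts : List affineA2.Group, IsReflFactorization cs w ts → RealizesDepth cs w ts →
      cs.length w < (ts.map cs.length).sum) := by
  rw [← wordProd_w₀]
  refine ⟨length_w₀ cs, depth_eq cs, ?_, ?_⟩
  · intro ts h1 h2
    have h3 := length_eq_one_of_reduced cs ts h1 h2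
    have h4 := cost_of_reduced cs ts h1 h2
    exact ⟨by rw [← (sum_of_ones cs ts h3).2, h4], h4⟩
  · intro ts h1 h2
    have h3 := length_prod_le cs ts
    rw [h1.2] at h3
    refine lt_of_le_of_ne h3 ?_
    intro h4
    have h5 := cost_of_reduced cs ts h1 h4
    have h6 := depth_eq cs
    unfold RealizesDepth at h2
    omega

end Pool.Agent.Results.MP_c1e3ac_co.AffineA2
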